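import Pool.Agent.H85.Fold3.Sph

/-!
# Singer for the real moduli spaces: isomorphic graphs and suspensions
-/

set_option autoImplicit false

open Finset

namespace Pool.Agent.H78.Cactus

open Pool.Agent.H85.Fold Pool.Agent.H85.Fold3

theorem Sph.congr {V : Type} [DecidableEq V] [Fintype V] {Δ Δ' : Finset V → Prop} {m : ℕ}
    (h : Sph Δ m) (hΔ : ∀ σ, Δ σ ↔ Δ' σ) : Sph Δ' m := by
  have : Δ = Δ' := funext fun σ => propext (hΔ σ)
  rw [← this]
  exact h

/-- isomorphic graphs -/
theorem iso_sphere {V W : Type} [DecidableEq V] [Fintype V] [DecidableEq W] [Fintype W]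
    {G : SimpleGraph V} {H : SimpleGraph W} (φ : G ≃g H) {n : ℕ} (h : IsHomologySphere H n) :
    IsHomologySphere G n := by
  rw [isHomologySphere_iff] at h ⊢
  have hcl : ∀ σ : Finset V, Cl H (σ.map φ.toEquiv.toEmbedding) ↔ Cl G σ := by
    intro σ
    constructor
    · intro hc u hu v hv huv
      have h1 := hc (φ u) (mem_map.2 ⟨u, hu, rfl⟩) (φ v) (mem_map.2 ⟨v, hv, rfl⟩)
        (fun h2 => huv (φ.toEquiv.injective h2))
      exact (φ.map_adj_iff).1 h1
    · intro hc u hu v hv huv
      obtain ⟨a, ha, rfl⟩ := mem_map.1 hu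
      obtain ⟨b, hb, rfl⟩ := mem_map.1 hv
      exact (φ.map_adj_iff).2 (hc a ha b hb (fun h2 => huv (by rw [h2])))
  intro ρ hρ
  obtain ⟨h1, h2⟩ := h _ ((hcl ρ).2 hρ)
  rw [card_map] at h1 h2
  refine ⟨h1, Sph.congr (h2.map φ.symm.toEquiv.toEmbedding) fun σ => ?_⟩
  have hback : ∀ τ : Finset V,
      (τ.map φ.toEquiv.toEmbedding).map φ.symm.toEquiv.toEmbedding = τ := by
    intro τ
    ext v
    simp only [mem_map]
    constructor
    · rintro ⟨w, ⟨a, ha, rfl⟩, rfl⟩
      have : φ.symm (φ a) = a := φ.symm_apply_apply a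
      change φ.symm (φ a) ∈ τ
      rw [this]
      exact ha
    · intro hv
      exact ⟨φ v, ⟨v, hv, rfl⟩, φ.symm_apply_apply v⟩
  have hforw : ∀ τ : Finset W,
      (τ.map φ.symm.toEquiv.toEmbedding).map φ.toEquiv.toEmbedding = τ := by
    intro τ
    ext v
    simp only [mem_map]
    constructor
    · rintro ⟨w, ⟨a, ha, rfl⟩, rfl⟩
      have : φ (φ.symm a) = a := φ.apply_symm_apply a
      change φ (φ.symm a) ∈ τ
      rw [this]
      exact ha
    · intro hv
      exact ⟨φ.symm v, ⟨v, hv, rfl⟩, φ.apply_symm_apply v⟩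
  have key : ∀ τ : Finset V, (Disjoint (τ.map φ.toEquiv.toEmbedding)
      (ρ.map φ.toEquiv.toEmbedding) ∧ Cl H (τ.map φ.toEquiv.toEmbedding ∪
        ρ.map φ.toEquiv.toEmbedding)) ↔ (Disjoint τ ρ ∧ Cl G (τ ∪ ρ)) := by
    intro τ
    rw [disjoint_map, ← map_union, hcl]
  constructor
  · rintro ⟨τ, hτ, rfl⟩
    rw [← key, hforw]
    exact hτ
  · intro hσ
    exact ⟨σ.map φ.toEquiv.toEmbedding, (key σ).2 hσ, (hback σ).symm⟩

/-- the suspension of a graph -/
def suspG {W : Type} (H : SimpleGraph W) : SimpleGraph (W ⊕ Bool) where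
  Adj x y := match x, y with
    | .inl a, .inl b => H.Adj a b
    | .inl _, .inr _ => True
    | .inr _, .inl _ => True
    | .inr _, .inr _ => False
  symm := ⟨fun x y h => by
    rcases x with a | a <;> rcases y with b | b <;> simp only at h ⊢
    · exact h.symm⟩
  loopless := ⟨fun x h => by
    rcases x with a | a
    · exact H.loopless.irrefl a h
    · exact h⟩

section

variable {W : Type} [DecidableEq W] [Fintype W] {H : SimpleGraph W}

theorem cl_susp (σ : Finset (W ⊕ Bool)) : Cl (suspG H) σ ↔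
    Cl H σ.toLeft ∧ ¬ (Sum.inr true ∈ σ ∧ Sum.inr false ∈ σ) := by
  constructor
  · intro h
    refine ⟨fun a ha b hb hab => ?_, fun ⟨h1, h2⟩ => ?_⟩
    · rw [mem_toLeft] at ha hb
      exact h _ ha _ hb (fun h1 => hab (Sum.inl.inj h1))
    · exact h _ h1 _ h2 (by simp)
  · rintro ⟨h1, h2⟩ x hx y hy hxy
    rcases x with a | a <;> rcases y with b | b
    · exact h1 a (mem_toLeft.2 hx) b (mem_toLeft.2 hy) (fun h3 => hxy (by rw [h3]))
    · trivial
    · trivial
    · exfalso
      rcases a with _ | _ <;> rcases b with _ | _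
      · exact hxy rfl
      · exact h2 ⟨hy, hx⟩
      · exact h2 ⟨hx, hy⟩
      · exact hxy rfl

theorem toLeft_union' (σ τ : Finset (W ⊕ Bool)) : (σ ∪ τ).toLeft = σ.toLeft ∪ τ.toLeft := by
  ext a
  simp only [mem_toLeft, mem_union]

/-- **Suspensions of homology spheres.** -/
theorem susp_sphere {n : ℕ} (h : IsHomologySphere H n) : IsHomologySphere (suspG H) (n + 1) := by
  rw [isHomologySphere_iff] at h ⊢
  intro ρ hρ
  rw [cl_susp] at hρ
  obtain ⟨h1, h2⟩ := h _ hρ.1
  have hmapin : ∀ τ : Finset W, ∀ x, x ∈ τ.map (Function.Embedding.inl : W ↪ W ⊕ Bool) ↔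
      ∃ a ∈ τ, x = Sum.inl a := by
    intro τ x
    rw [mem_map]
    exact ⟨fun ⟨a, ha, h3⟩ => ⟨a, ha, h3.symm⟩, fun ⟨a, ha, h3⟩ => ⟨a, ha, h3.symm⟩⟩
  by_cases hin : Sum.inr true ∉ ρ ∧ Sum.inr false ∉ ρ
  · -- the clique is in the graph
    have hρ' : ρ = ρ.toLeft.map (Function.Embedding.inl : W ↪ W ⊕ Bool) := by
      ext x
      rw [hmapin]
      constructor
      · intro hx
        rcases x with a | a
        · exact ⟨a, mem_toLeft.2 hx, rfl⟩
        · rcases a with _ | _
          · exact absurd hx hin.2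
          · exact absurd hx hin.1
      · rintro ⟨a, ha, rfl⟩
        exact mem_toLeft.1 ha
    have hcard : ρ.card = ρ.toLeft.card := by
      conv_lhs => rw [hρ']
      rw [card_map]
    rw [hcard]
    refine ⟨by omega, ?_⟩
    have h3 := (h2.map (Function.Embedding.inl : W ↪ W ⊕ Bool)).susp
      (u := Sum.inr true) (w := Sum.inr false) (by simp)
      (by
        rintro σ ⟨τ, -, rfl⟩ h4
        obtain ⟨a, -, h5⟩ := (hmapin τ _).1 h4
        exact Sum.inr_ne_inl h5)
      (by
        rintro σ ⟨τ, -, rfl⟩ h4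
        obtain ⟨a, -, h5⟩ := (hmapin τ _).1 h4
        exact Sum.inr_ne_inl h5)
    rw [show n + 1 - ρ.toLeft.card = n - ρ.toLeft.card + 1 by omega]
    refine Sph.congr h3 fun σ => ?_
    have hσ' : (σ.erase (Sum.inr true)).erase (Sum.inr false) =
        σ.toLeft.map (Function.Embedding.inl : W ↪ W ⊕ Bool) := by
      ext x
      rw [hmapin, mem_erase, mem_erase]
      constructor
      · rintro ⟨h4, h5, h6⟩
        rcases x with a | a
        · exact ⟨a, mem_toLeft.2 h6, rfl⟩
        · rcases a with _ | _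
          · exact absurd rfl h4
          · exact absurd rfl h5
      · rintro ⟨a, ha, rfl⟩
        exact ⟨by simp, by simp, mem_toLeft.1 ha⟩
    rw [hσ', cl_susp]
    have hdisj : Disjoint σ ρ ↔ Disjoint σ.toLeft ρ.toLeft := by
      rw [Finset.disjoint_left, Finset.disjoint_left]
      constructor
      · intro h4 a ha hb
        exact h4 (mem_toLeft.1 ha) (mem_toLeft.1 hb)
      · intro h4 x hx hx'
        rcases x with a | a
        · exact h4 (mem_toLeft.2 hx) (mem_toLeft.2 hx')
        · rcases a with _ | _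
          · exact hin.2 hx'
          · exact hin.1 hx'
    rw [hdisj, toLeft_union']
    simp only [mem_union]
    constructor
    · rintro ⟨h4, τ, ⟨h5, h6⟩, h7⟩
      have h8 := Finset.map_injective _ h7
      rw [h8]
      refine ⟨h5, h6, ?_⟩
      rintro ⟨h9 | h9, h10 | h10⟩
      · exact h4 ⟨h9, h10⟩
      · exact hin.2 h10
      · exact hin.1 h9
      · exact hin.1 h9
    · rintro ⟨h4, h5, h6⟩
      exact ⟨fun h7 => h6 ⟨Or.inl h7.1, Or.inl h7.2⟩, σ.toLeft, ⟨h4, h5⟩, rfl⟩
  · -- exactly one of the new vertices is in the clique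
    obtain ⟨c, hc, hc'⟩ : ∃ c : Bool, Sum.inr c ∈ ρ ∧ Sum.inr (!c) ∉ ρ := by
      by_cases h3 : Sum.inr true ∈ ρ
      · exact ⟨true, h3, fun h4 => hρ.2 ⟨h3, h4⟩⟩
      · have h4 : Sum.inr false ∈ ρ := by
          by_contra h4
          exact hin ⟨h3, h4⟩
        exact ⟨false, h4, h3⟩
    have hall : ∀ d : Bool, Sum.inr d ∈ ρ → d = c := by
      intro d hd
      by_contra hne
      have : d = !c := by
        cases d <;> cases c <;> simp_all
      rw [this] at hd
      exact hc' hd
    have hρ' : ρ = insert (Sum.inr c) (ρ.toLeft.map (Function.Embedding.inl : W ↪ W ⊕ Bool)) := by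
      ext x
      rw [mem_insert, hmapin]
      constructor
      · intro hx
        rcases x with a | a
        · exact Or.inr ⟨a, mem_toLeft.2 hx, rfl⟩
        · exact Or.inl (by rw [hall a hx])
      · rintro (rfl | ⟨a, ha, rfl⟩)
        · exact hc
        · exact mem_toLeft.1 ha
    have hcard : ρ.card = ρ.toLeft.card + 1 := by
      conv_lhs => rw [hρ']
      rw [card_insert_of_notMem, card_map]
      rw [hmapin]
      rintro ⟨a, -, h5⟩
      exact Sum.inr_ne_inl h5
    rw [hcard]
    refine ⟨by omega, ?_⟩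
    rw [show n + 1 - (ρ.toLeft.card + 1) = n - ρ.toLeft.card by omega]
    refine Sph.congr (h2.map (Function.Embedding.inl : W ↪ W ⊕ Bool)) fun σ => ?_
    rw [cl_susp, toLeft_union']
    simp only [mem_union]
    constructor
    · rintro ⟨τ, ⟨h3, h4⟩, rfl⟩
      have hτ : (τ.map (Function.Embedding.inl : W ↪ W ⊕ Bool)).toLeft = τ := by
        ext a
        rw [mem_toLeft, hmapin]
        constructor
        · rintro ⟨b, hb, h5⟩
          rw [Sum.inl.inj h5]
          exact hb
        · intro ha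
          exact ⟨a, ha, rfl⟩
      rw [hτ]
      have hno : ∀ d : Bool, Sum.inr d ∉ τ.map (Function.Embedding.inl : W ↪ W ⊕ Bool) := by
        intro d hd
        obtain ⟨a, -, h5⟩ := (hmapin τ _).1 hd
        exact Sum.inr_ne_inl h5
      refine ⟨?_, h4, ?_⟩
      · rw [Finset.disjoint_left]
        intro x hx hx'
        obtain ⟨a, ha, rfl⟩ := (hmapin τ x).1 hx
        exact Finset.disjoint_left.1 h3 ha (mem_toLeft.2 hx')
      · rintro ⟨h5 | h5, h6 | h6⟩
        · exact hno _ h5
        · exact hno _ h5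
        · exact hno _ h6
        · exact hρ.2 ⟨h5, h6⟩
    · rintro ⟨h3, h4, h5⟩
      have hno : ∀ d : Bool, Sum.inr d ∉ σ := by
        intro d hd
        have hdc : d ≠ c := by
          rintro rfl
          exact Finset.disjoint_left.1 h3 hd hc
        cases d <;> cases c
        · exact hdc rfl
        · exact h5 ⟨Or.inr hc, Or.inl hd⟩
        · exact h5 ⟨Or.inl hd, Or.inr hc⟩
        · exact hdc rfl
      refine ⟨σ.toLeft, ⟨?_, h4⟩, ?_⟩
      · rw [Finset.disjoint_left]
        intro a ha hb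
        exact Finset.disjoint_left.1 h3 (mem_toLeft.1 ha) (mem_toLeft.1 hb)
      · ext x
        rw [hmapin]
        constructor
        · intro hx
          rcases x with a | a
          · exact ⟨a, mem_toLeft.2 hx, rfl⟩
          · exact absurd hx (hno a)
        · rintro ⟨a, ha, rfl⟩
          exact mem_toLeft.1 ha

end

end Pool.Agent.H78.Cactus
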