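import Mathlib

/-!
# Singer for the real moduli spaces: perturbation of definite forms
-/

set_option autoImplicit false

open Finset Filter

namespace Pool.Agent.H78.Cactus

/-- Let `A ≤ 0`, and `B < 0` where `A = 0`, on the nonzero vectors of a closed cone of functions
with finite support. Then `M A + B < 0` for all large `M`. -/
theorem eventually_neg {ι : Type} (F : Finset ι) (S : Set (ι → ℝ)) (hS : IsClosed S)
    (hF : ∀ v ∈ S, ∀ i, i ∉ F → v i = 0)
    (hc : ∀ v ∈ S, ∀ c : ℝ, c • v ∈ S) (A B : (ι → ℝ) → ℝ) (hA : Continuous A)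
    (hB : Continuous B) (hA2 : ∀ v (c : ℝ), A (c • v) = c ^ 2 * A v)
    (hB2 : ∀ v (c : ℝ), B (c • v) = c ^ 2 * B v) (h1 : ∀ v ∈ S, A v ≤ 0)
    (h2 : ∀ v ∈ S, v ≠ 0 → A v = 0 → B v < 0) :
    ∃ M₀ : ℕ, ∀ M : ℕ, M₀ ≤ M → ∀ v ∈ S, v ≠ 0 → (M : ℝ) * A v + B v < 0 := by
  set nm : (ι → ℝ) → ℝ := fun v => ∑ i ∈ F, |v i| with hnm
  have hnmc : Continuous nm := by
    refine continuous_finsetSum _ fun i _ => ?_
    exact (continuous_apply i).abs
  set K : Set (ι → ℝ) := Set.univ.pi (fun _ : ι => Set.Icc (-1 : ℝ) 1) ∩ (S ∩ {v | nm v = 1})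
    with hK
  have hKc : IsCompact K :=
    (isCompact_univ_pi fun _ => isCompact_Icc).inter_right
      (hS.inter (isClosed_eq hnmc continuous_const))
  have hnm0 : ∀ v ∈ S, v ≠ 0 → 0 < nm v := by
    intro v hv hv0
    rcases (Finset.sum_nonneg fun i (_ : i ∈ F) => abs_nonneg (v i)).lt_or_eq with h | h
    · exact h
    · exfalso
      apply hv0
      funext i
      by_cases hi : i ∈ F
      · have := (Finset.sum_eq_zero_iff_of_nonneg fun i (_ : i ∈ F) => abs_nonneg (v i)).1 h.symm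
          i hi
        exact abs_eq_zero.1 this
      · exact hF v hv i hi
  -- on `K` the forms decrease
  have hcov : K ⊆ ⋃ M : ℕ, {v | (M : ℝ) * A v + B v < 0} := by
    intro v hv
    have hv0 : v ≠ 0 := by
      rintro rfl
      have h3 : nm 0 = 1 := hv.2.2
      simp [hnm] at h3
    rw [Set.mem_iUnion]
    rcases (h1 v hv.2.1).lt_or_eq with h | h
    · obtain ⟨M, hM⟩ := exists_nat_gt (B v / (-A v))
      refine ⟨M, ?_⟩
      rw [div_lt_iff₀ (neg_pos.2 h)] at hM
      show (M : ℝ) * A v + B v < 0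
      linarith
    · refine ⟨0, ?_⟩
      show ((0 : ℕ) : ℝ) * A v + B v < 0
      rw [Nat.cast_zero, zero_mul, zero_add]
      exact h2 v hv.2.1 hv0 h
  have hopen : ∀ M : ℕ, IsOpen {v | (M : ℝ) * A v + B v < 0} := fun M =>
    isOpen_lt ((continuous_const.mul hA).add hB) continuous_const
  obtain ⟨t, ht⟩ := hKc.elim_finite_subcover _ hopen hcov
  refine ⟨t.sup id, fun M hM v hv hv0 => ?_⟩
  have hn := hnm0 v hv hv0
  set u := (nm v)⁻¹ • v with hu
  have hnmu : nm u = 1 := by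
    rw [hnm, hu]
    simp only [Pi.smul_apply, smul_eq_mul, abs_mul]
    rw [← Finset.mul_sum, abs_of_pos (inv_pos.2 hn)]
    exact inv_mul_cancel₀ hn.ne'
  have huS : u ∈ S := hc v hv _
  have huK : u ∈ K := by
    refine ⟨?_, huS, hnmu⟩
    intro i _
    show -1 ≤ u i ∧ u i ≤ 1
    rw [← abs_le]
    by_cases hi : i ∈ F
    · rw [← hnmu]
      exact Finset.single_le_sum (f := fun i => |u i|) (fun i _ => abs_nonneg (u i)) hi
    · rw [hF u huS i hi, abs_zero]
      exact zero_le_one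
  obtain ⟨M₁, hM₁t, hM₁⟩ : ∃ M₁ ∈ t, (M₁ : ℝ) * A u + B u < 0 := by
    have := ht huK
    rw [Set.mem_iUnion₂] at this
    obtain ⟨i, hi, h⟩ := this
    exact ⟨i, hi, h⟩
  have hle : M₁ ≤ M := le_trans (Finset.le_sup (f := id) hM₁t) hM
  have hlt : (M : ℝ) * A u + B u < 0 := by
    have h3 : (M : ℝ) * A u ≤ (M₁ : ℝ) * A u :=
      mul_le_mul_of_nonpos_right (by exact_mod_cast hle) (h1 u huS)
    linarith
  have hv' : v = nm v • u := by
    rw [hu, smul_smul, mul_inv_cancel₀ hn.ne', one_smul]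
  rw [hv', hA2, hB2]
  have : (M : ℝ) * (nm v ^ 2 * A u) + nm v ^ 2 * B u = nm v ^ 2 * ((M : ℝ) * A u + B u) := by ring
  rw [this]
  exact mul_neg_of_pos_of_neg (by positivity) hlt

end Pool.Agent.H78.Cactus
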