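import Pool.Agent.H78.Cactus.KerW
import Pool.Agent.H78.Cactus.Perturb

/-!
# Singer for the real moduli spaces: the signature of the form on every polygon
-/

set_option autoImplicit false

open Finset

namespace Pool.Agent.H78.Cactus

/-- negative definite on the kernel of `n` functionals -/
def Good (N n : ℕ) (T : Finset ℕ → Finset ℕ → ℤ) (p : ℕ → ℕ) : Prop :=
  ∃ φ : (Finset ℕ → ℝ) →L[ℝ] (Fin n → ℝ), ∀ v, Sym N p v → φ v = 0 → v ≠ 0 → Q N T v < 0

theorem isClosed_sym (N : ℕ) (p : ℕ → ℕ) : IsClosed {v | Sym N p v} := by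
  have h1 : {v | Sym N p v} =
      (⋂ S : Finset ℕ, ⋂ (_ : ¬ (IsArc N p S ∧ 2 ≤ S.card ∧ S.card + 2 ≤ N)),
        {v : Finset ℕ → ℝ | v S = 0}) ∩
      ⋂ S : Finset ℕ, ⋂ (_ : S ⊆ range N), {v : Finset ℕ → ℝ | v (range N \ S) = v S} := by
    ext v
    simp only [Set.mem_inter_iff, Set.mem_iInter]
    constructor
    · intro hv
      refine ⟨fun S hS => ?_, fun S hS => hv.compl S hS⟩
      by_contra hne
      exact hS (hv.supp S hne)
    · rintro ⟨h1, h2⟩
      refine ⟨fun S hS => ?_, fun S hS => h2 S hS⟩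
      by_contra hne
      exact hS (h1 S hne)
  rw [h1]
  refine IsClosed.inter ?_ ?_
  · exact isClosed_iInter fun S => isClosed_iInter fun _ =>
      isClosed_eq (continuous_apply S) continuous_const
  · exact isClosed_iInter fun S => isClosed_iInter fun _ =>
      isClosed_eq (continuous_apply _) (continuous_apply S)

theorem Sym.smul {N : ℕ} {p : ℕ → ℕ} {v : Finset ℕ → ℝ} (hv : Sym N p v) (c : ℝ) :
    Sym N p (c • v) := by
  refine ⟨fun S hS => hv.supp S fun h => hS ?_, fun S hS => ?_⟩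
  · show c * v S = 0
    rw [h, mul_zero]
  · show c * v _ = c * v S
    rw [hv.compl S hS]

theorem Q_smul (N : ℕ) (T : Finset ℕ → Finset ℕ → ℤ) (v : Finset ℕ → ℝ) (c : ℝ) :
    Q N T (c • v) = c ^ 2 * Q N T v := by
  unfold Q
  rw [Finset.mul_sum]
  refine Finset.sum_congr rfl fun S _ => ?_
  rw [Finset.mul_sum]
  refine Finset.sum_congr rfl fun S' _ => ?_
  show (T S S' : ℝ) * ((c * v S) * (c * v S')) = _
  ring

theorem Q_cont (N : ℕ) (T : Finset ℕ → Finset ℕ → ℤ) : Continuous (Q N T) := by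
  unfold Q
  refine continuous_finsetSum _ fun S _ => continuous_finsetSum _ fun S' _ => ?_
  exact continuous_const.mul ((continuous_apply S).mul (continuous_apply S'))

/-- the restriction as a continuous linear map -/
noncomputable def resL (L : ℕ) : (Finset ℕ → ℝ) →L[ℝ] (Finset ℕ → ℝ) :=
  ContinuousLinearMap.pi fun A =>
    if A ⊆ range L ∧ 2 ≤ A.card ∧ A.card + 2 ≤ L then
      ContinuousLinearMap.proj (R := ℝ) (φ := fun _ : Finset ℕ => ℝ) A +
        ContinuousLinearMap.proj (R := ℝ) (φ := fun _ : Finset ℕ => ℝ) (insert L A)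
    else 0

theorem resL_apply (L : ℕ) (v : Finset ℕ → ℝ) : resL L v = res L v := by
  funext A
  unfold resL res
  rw [ContinuousLinearMap.pi_apply]
  split_ifs <;> rfl

/-- the new functional -/
noncomputable def ellL (L : ℕ) (p : ℕ → ℕ) : (Finset ℕ → ℝ) →L[ℝ] ℝ :=
  ∑ j ∈ range L, ((j : ℝ) * ((L : ℝ) - j)) •
    (if j + 1 < L then ContinuousLinearMap.proj (R := ℝ) (φ := fun _ : Finset ℕ => ℝ) (arc p j L)
    else - ContinuousLinearMap.proj (R := ℝ) (φ := fun _ : Finset ℕ => ℝ) (arc p 0 j))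

theorem ellL_apply (L : ℕ) (p : ℕ → ℕ) (v : Finset ℕ → ℝ) :
    ellL L p v = ∑ j ∈ range L, (j : ℝ) * ((L : ℝ) - j) * wc L p v j := by
  unfold ellL
  rw [_root_.sum_apply]
  refine Finset.sum_congr rfl fun j _ => ?_
  unfold wc
  split_ifs <;> rfl

theorem res_smul (L : ℕ) (v : Finset ℕ → ℝ) (c : ℝ) : res L (c • v) = c • res L v := by
  rw [← resL_apply, ← resL_apply, map_smul]

theorem mem_powerset_of_sym {N : ℕ} {p : ℕ → ℕ} (h : IsOrd N p) {v : Finset ℕ → ℝ}
    (hv : Sym N p v) (S : Finset ℕ) (hS : S ∉ (range N).powerset) : v S = 0 := by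
  by_contra hne
  exact hS (mem_powerset.2 ((hv.supp S hne).1.subset h))

/-- the induction step for one polygon which starts at the last point -/
theorem good_step {L n : ℕ} (hL : 0 < L) {T : Finset ℕ → Finset ℕ → ℤ} (hT : IsForm L T)
    {p : ℕ → ℕ} (h : IsOrd (L + 1) p) (h0 : p 0 = L) (hg : Good L n T (tl p)) :
    ∃ M₀ : ℕ, ∀ M : ℕ, M₀ ≤ M → Good (L + 1) (n + 1) (nextT L T M) p := by
  obtain ⟨φ, hφ⟩ := hg
  set ψ : (Finset ℕ → ℝ) →L[ℝ] (Fin (n + 1) → ℝ) := ContinuousLinearMap.pi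
    (Fin.cons (ellL L p) fun s => (ContinuousLinearMap.proj (R := ℝ) (φ := fun _ : Fin n => ℝ) s).comp
      (φ.comp (resL L))) with hψ
  have hψ0 : ∀ v, ψ v = 0 ↔ ellL L p v = 0 ∧ φ (res L v) = 0 := by
    intro v
    rw [← resL_apply]
    constructor
    · intro hv
      refine ⟨?_, ?_⟩
      · have := congrFun hv 0
        rw [hψ, ContinuousLinearMap.pi_apply, Fin.cons_zero] at this
        exact this
      · funext s
        have := congrFun hv s.succ
        rw [hψ, ContinuousLinearMap.pi_apply, Fin.cons_succ] at this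
        exact this
    · rintro ⟨h1, h2⟩
      funext s
      refine Fin.cases ?_ (fun s => ?_) s
      · rw [hψ, ContinuousLinearMap.pi_apply, Fin.cons_zero]
        exact h1
      · rw [hψ, ContinuousLinearMap.pi_apply, Fin.cons_succ]
        exact congrFun h2 s
  obtain ⟨M₀, hM₀⟩ := eventually_neg (range (L + 1)).powerset {v | Sym (L + 1) p v ∧ ψ v = 0}
    ((isClosed_sym (L + 1) p).inter (isClosed_eq ψ.continuous continuous_const))
    (fun v hv S hS => mem_powerset_of_sym h hv.1 S hS)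
    (fun v hv c => ⟨hv.1.smul c, by rw [map_smul, hv.2, smul_zero]⟩)
    (fun v => Q L T (res L v)) (fun v => Q (L + 1) (Tz L) v)
    (by
      have h1 : (fun v => Q L T (res L v)) = fun v => Q L T (resL L v) := by
        funext v
        rw [resL_apply]
      rw [h1]
      exact (Q_cont L T).comp (resL L).continuous)
    (Q_cont _ _) (fun v c => by rw [res_smul, Q_smul]) (fun v c => Q_smul _ _ _ _)
    (fun v hv => by
      by_cases h1 : res L v = 0
      · rw [h1]
        unfold Q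
        simp
      · exact (hφ _ (hv.1.res h h0 hL) ((hψ0 v).1 hv.2).2 h1).le)
    (fun v hv hv0 hA => by
      have h1 : res L v = 0 := by
        by_contra h1
        exact absurd hA (hφ _ (hv.1.res h h0 hL) ((hψ0 v).1 hv.2).2 h1).ne
      refine Q_ker_neg h h0 hv.1 h1 hv0 ?_
      rw [← ellL_apply]
      exact ((hψ0 v).1 hv.2).1)
  refine ⟨M₀, fun M hM => ⟨ψ, fun v hv hψv hv0 => ?_⟩⟩
  rw [Q_next L hT M v]
  exact hM₀ M hM v ⟨hv, hψv⟩ hv0

open Classical in
/-- the arcs of a polygon -/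
noncomputable def arcs (N : ℕ) (p : ℕ → ℕ) : Finset (Finset ℕ) :=
  (range N).powerset.filter fun S => IsArc N p S

open Classical in
theorem mem_arcs {N : ℕ} {p : ℕ → ℕ} {S : Finset ℕ} :
    S ∈ arcs N p ↔ S ⊆ range N ∧ IsArc N p S := by
  unfold arcs
  rw [mem_filter, mem_powerset]

theorem Sym.congr_arcs {N : ℕ} {p q : ℕ → ℕ} {v : Finset ℕ → ℝ} (hp : IsOrd N p)
    (hpq : arcs N p = arcs N q) (hv : Sym N p v) : Sym N q v := by
  refine ⟨fun S hS => ⟨?_, (hv.supp S hS).2⟩, hv.compl⟩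
  have h1 : S ∈ arcs N p := mem_arcs.2 ⟨(hv.supp S hS).1.subset hp, (hv.supp S hS).1⟩
  rw [hpq] at h1
  exact (mem_arcs.1 h1).2

/-- **Forms with the right signature on every polygon.** -/
theorem exists_form (n : ℕ) : ∃ T : Finset ℕ → Finset ℕ → ℤ, IsForm (n + 3) T ∧
    ∀ p, IsOrd (n + 3) p → Good (n + 3) n T p := by
  induction n with
  | zero =>
    refine ⟨fun _ _ => 0, isForm_zero (by omega), fun p _ => ⟨0, fun v hv _ hv0 => ?_⟩⟩
    exfalso
    apply hv0
    funext S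
    by_contra hne
    obtain ⟨-, h1, h2⟩ := hv.supp S hne
    omega
  | succ n ih =>
    obtain ⟨T, hT, hg⟩ := ih
    have h1 : ∀ p, IsOrd (n + 3 + 1) p →
        ∃ M₀ : ℕ, ∀ M : ℕ, M₀ ≤ M → Good (n + 3 + 1) (n + 1) (nextT (n + 3) T M) p := by
      intro p hp
      obtain ⟨t, ht, htp⟩ := hp.surj (n + 3) (by omega)
      have h0 : rot (n + 3 + 1) t p 0 = n + 3 := by
        unfold rot
        rw [zero_add, Nat.mod_eq_of_lt ht, htp]
      have hr := hp.rot t
      obtain ⟨M₀, hM₀⟩ := good_step (by omega) hT hr h0 (hg _ (hr.tl h0))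
      refine ⟨M₀, fun M hM => ?_⟩
      obtain ⟨φ, hφ⟩ := hM₀ M hM
      exact ⟨φ, fun v hv => hφ v (hv.rot hp t ht)⟩
    have h2 : ∀ F : Finset (Finset ℕ), ∃ M₀ : ℕ, ∀ M : ℕ, M₀ ≤ M → ∀ p, IsOrd (n + 3 + 1) p →
        arcs (n + 3 + 1) p = F → Good (n + 3 + 1) (n + 1) (nextT (n + 3) T M) p := by
      intro F
      by_cases hF : ∃ q, IsOrd (n + 3 + 1) q ∧ arcs (n + 3 + 1) q = F
      · obtain ⟨q, hq, hqF⟩ := hF
        obtain ⟨M₀, hM₀⟩ := h1 q hq
        refine ⟨M₀, fun M hM p hp hpF => ?_⟩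
        obtain ⟨φ, hφ⟩ := hM₀ M hM
        exact ⟨φ, fun v hv => hφ v (hv.congr_arcs hp (hpF.trans hqF.symm))⟩
      · exact ⟨0, fun M _ p hp hpF => absurd ⟨p, hp, hpF⟩ hF⟩
    choose f hf using h2
    set M := (range (n + 3 + 1)).powerset.powerset.sup f with hM
    refine ⟨nextT (n + 3) T M, hT.next M, fun p hp => ?_⟩
    refine hf (arcs (n + 3 + 1) p) M ?_ p hp rfl
    refine Finset.le_sup (f := f) ?_
    rw [mem_powerset]
    intro S hS
    exact mem_powerset.2 (mem_arcs.1 hS).1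

end Pool.Agent.H78.Cactus
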