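import Pool.Agent.H78.Cactus.Sig

/-!
# Singer for the real moduli spaces: arcs of a polygon

The cyclic order of the points is `p 0, p 1, ..., p (N - 1)`.
-/

set_option autoImplicit false

open Finset

namespace Pool.Agent.H78.Cactus

/-- `p` is a permutation of `range N` -/
structure IsOrd (N : ℕ) (p : ℕ → ℕ) : Prop where
  lt : ∀ i, i < N → p i < N
  inj : ∀ i j, i < N → j < N → p i = p j → i = j

theorem IsOrd.image_range {N : ℕ} {p : ℕ → ℕ} (h : IsOrd N p) : (range N).image p = range N := by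
  apply Finset.eq_of_subset_of_card_le
  · intro x hx
    obtain ⟨i, hi, rfl⟩ := mem_image.1 hx
    exact mem_range.2 (h.lt i (mem_range.1 hi))
  · rw [Finset.card_image_of_injOn]
    intro i hi j hj hij
    exact h.inj i j (mem_range.1 (by simpa using hi)) (mem_range.1 (by simpa using hj)) hij

theorem IsOrd.surj {N : ℕ} {p : ℕ → ℕ} (h : IsOrd N p) (x : ℕ) (hx : x < N) :
    ∃ i < N, p i = x := by
  have h1 : x ∈ (range N).image p := by rw [h.image_range]; exact mem_range.2 hx
  obtain ⟨i, hi, rfl⟩ := mem_image.1 h1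
  exact ⟨i, mem_range.1 hi, rfl⟩

/-- the points with positions in `(i, j]` -/
def arc (p : ℕ → ℕ) (i j : ℕ) : Finset ℕ := (Ioc i j).image p

theorem IsOrd.mem_arc {N : ℕ} {p : ℕ → ℕ} (h : IsOrd N p) {i j k : ℕ} (hj : j < N) (hk : k < N) :
    p k ∈ arc p i j ↔ i < k ∧ k ≤ j := by
  unfold arc
  rw [mem_image]
  constructor
  · rintro ⟨l, hl, hlk⟩
    rw [mem_Ioc] at hl
    have := h.inj l k (by omega) hk hlk
    subst this
    exact hl
  · intro hk
    exact ⟨k, mem_Ioc.2 hk, rfl⟩

theorem IsOrd.arc_subset {N : ℕ} {p : ℕ → ℕ} (h : IsOrd N p) {i j : ℕ} (hj : j < N) :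
    arc p i j ⊆ range N := by
  intro x hx
  obtain ⟨k, hk, rfl⟩ := mem_image.1 hx
  rw [mem_Ioc] at hk
  exact mem_range.2 (h.lt k (by omega))

theorem IsOrd.card_arc {N : ℕ} {p : ℕ → ℕ} (h : IsOrd N p) {i j : ℕ} (hj : j < N) :
    (arc p i j).card = j - i := by
  unfold arc
  rw [Finset.card_image_of_injOn, Nat.card_Ioc]
  intro a ha b hb hab
  simp only [coe_Ioc, Set.mem_Ioc] at ha hb
  exact h.inj a b (by omega) (by omega) hab

/-- extensionality for sets of points, by positions -/
theorem IsOrd.ext {N : ℕ} {p : ℕ → ℕ} (h : IsOrd N p) {A B : Finset ℕ} (hA : A ⊆ range N)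
    (hB : B ⊆ range N) (hAB : ∀ k < N, p k ∈ A ↔ p k ∈ B) : A = B := by
  ext x
  constructor
  · intro hx
    obtain ⟨k, hk, rfl⟩ := h.surj x (mem_range.1 (hA hx))
    exact (hAB k hk).1 hx
  · intro hx
    obtain ⟨k, hk, rfl⟩ := h.surj x (mem_range.1 (hB hx))
    exact (hAB k hk).2 hx

/-- `S` is an arc of the cyclic order (or empty, or everything) -/
def IsArc (N : ℕ) (p : ℕ → ℕ) (S : Finset ℕ) : Prop :=
  ∃ i j, i ≤ j ∧ j < N ∧ (S = arc p i j ∨ S = range N \ arc p i j)

theorem IsArc.subset {N : ℕ} {p : ℕ → ℕ} (h : IsOrd N p) {S : Finset ℕ} (hS : IsArc N p S) :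
    S ⊆ range N := by
  obtain ⟨i, j, -, hj, rfl | rfl⟩ := hS
  · exact h.arc_subset hj
  · exact sdiff_subset

theorem IsArc.compl {N : ℕ} {p : ℕ → ℕ} (h : IsOrd N p) {S : Finset ℕ} (hS : IsArc N p S) :
    IsArc N p (range N \ S) := by
  obtain ⟨i, j, hij, hj, rfl | rfl⟩ := hS
  · exact ⟨i, j, hij, hj, Or.inr rfl⟩
  · refine ⟨i, j, hij, hj, Or.inl ?_⟩
    rw [Finset.sdiff_sdiff_eq_self (h.arc_subset hj)]

/-- rotation -/
def rot (N t : ℕ) (p : ℕ → ℕ) (i : ℕ) : ℕ := p ((i + t) % N)

theorem IsOrd.rot {N : ℕ} {p : ℕ → ℕ} (h : IsOrd N p) (t : ℕ) :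
    IsOrd N (rot N t p) := by
  refine ⟨fun i _ => h.lt _ (Nat.mod_lt _ (by omega)), fun i j hi hj hij => ?_⟩
  have h1 := h.inj _ _ (Nat.mod_lt _ (by omega)) (Nat.mod_lt _ (by omega)) hij
  have h2 : (i + t) ≡ (j + t) [MOD N] := h1
  have h3 := Nat.ModEq.add_right_cancel' t h2
  exact Nat.ModEq.eq_of_lt_of_lt h3 hi hj

/-- the position after rotation -/
theorem rot_pos {N t : ℕ} {p : ℕ → ℕ} (ht : t < N) {k : ℕ} (hk : k < N) :
    rot N t p (if t ≤ k then k - t else k + N - t) = p k := by
  unfold rot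
  split_ifs with h
  · rw [Nat.sub_add_cancel h, Nat.mod_eq_of_lt hk]
  · rw [show k + N - t + t = k + N by omega, Nat.add_mod_right, Nat.mod_eq_of_lt hk]

theorem IsArc.rot {N : ℕ} {p : ℕ → ℕ} (h : IsOrd N p) (t : ℕ) (ht : t < N) {S : Finset ℕ}
    (hS : IsArc N p S) : IsArc N (rot N t p) S := by
  have hr := h.rot t
  -- it is enough to treat the intervals
  have key : ∀ i j, i ≤ j → j < N → IsArc N (Cactus.rot N t p) (arc p i j) := by
    intro i j hij hj
    by_cases h1 : t ≤ i
    · refine ⟨i - t, j - t, by omega, by omega, Or.inl ?_⟩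
      refine h.ext (h.arc_subset hj) (hr.arc_subset (by omega)) fun k hk => ?_
      rw [h.mem_arc hj hk]
      rw [← rot_pos ht hk (p := p), hr.mem_arc (by omega) (by split_ifs <;> omega)]
      split_ifs <;> omega
    · by_cases h2 : j < t
      · refine ⟨i + N - t, j + N - t, by omega, by omega, Or.inl ?_⟩
        refine h.ext (h.arc_subset hj) (hr.arc_subset (by omega)) fun k hk => ?_
        rw [h.mem_arc hj hk]
        rw [← rot_pos ht hk (p := p), hr.mem_arc (by omega) (by split_ifs <;> omega)]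
        split_ifs <;> omega
      · refine ⟨j - t, i + N - t, by omega, by omega, Or.inr ?_⟩
        refine h.ext (h.arc_subset hj) sdiff_subset fun k hk => ?_
        rw [h.mem_arc hj hk, mem_sdiff, mem_range]
        rw [← rot_pos ht hk (p := p), hr.mem_arc (by omega) (by split_ifs <;> omega)]
        have h3 : Cactus.rot N t p (if t ≤ k then k - t else k + N - t) < N :=
          hr.lt _ (by split_ifs <;> omega)
        simp only [h3, true_and]
        split_ifs <;> omega
  obtain ⟨i, j, hij, hj, rfl | rfl⟩ := hS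
  · exact key i j hij hj
  · exact (key i j hij hj).compl hr

/-- forget the first point -/
def tl (p : ℕ → ℕ) (i : ℕ) : ℕ := p (i + 1)

theorem IsOrd.tl {L : ℕ} {p : ℕ → ℕ} (h : IsOrd (L + 1) p) (h0 : p 0 = L) : IsOrd L (tl p) := by
  refine ⟨fun i hi => ?_, fun i j hi hj hij => ?_⟩
  · have h1 : p (i + 1) < L + 1 := h.lt _ (by omega)
    have h2 : p (i + 1) ≠ L := by
      intro h3
      rw [← h0] at h3
      have := h.inj _ _ (by omega) (by omega) h3
      omega
    show p (i + 1) < L
    omega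
  · have := h.inj _ _ (by omega) (by omega) hij
    omega

theorem arc_subset_range {L : ℕ} {p : ℕ → ℕ} (h : IsOrd (L + 1) p) (h0 : p 0 = L) {i j : ℕ}
    (hj : j < L + 1) : arc p i j ⊆ range L := by
  intro x hx
  obtain ⟨k, hk, rfl⟩ := mem_image.1 hx
  rw [mem_Ioc] at hk
  have h1 := (h.tl h0).lt (k - 1) (by omega)
  unfold tl at h1
  rw [Nat.sub_add_cancel (by omega)] at h1
  exact mem_range.2 h1

/-- arcs of the smaller polygon -/
theorem isArc_tl {L : ℕ} {p : ℕ → ℕ} (h : IsOrd (L + 1) p) (h0 : p 0 = L) (hL : 0 < L) {i j : ℕ}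
    (hij : i ≤ j) (hj : j < L + 1) : IsArc L (tl p) (arc p i j) := by
  have ht := h.tl h0
  have hmem : ∀ k < L, tl p k ∈ arc p i j ↔ i < k + 1 ∧ k + 1 ≤ j := fun k hk =>
    h.mem_arc hj (by omega)
  by_cases h1 : i = 0
  · subst h1
    by_cases h2 : j = 0
    · subst h2
      refine ⟨0, 0, le_rfl, hL, Or.inl ?_⟩
      simp [arc]
    · refine ⟨j - 1, L - 1, by omega, by omega, Or.inr ?_⟩
      refine ht.ext (arc_subset_range h h0 hj) sdiff_subset fun k hk => ?_
      rw [hmem k hk, mem_sdiff, mem_range, ht.mem_arc (by omega) hk]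
      have := ht.lt k hk
      simp only [this, true_and]
      omega
  · refine ⟨i - 1, j - 1, by omega, by omega, Or.inl ?_⟩
    refine ht.ext (arc_subset_range h h0 hj) (ht.arc_subset (by omega)) fun k hk => ?_
    rw [hmem k hk, ht.mem_arc (by omega) hk]
    omega

/-- symmetric functions on the nontrivial arcs -/
structure Sym (N : ℕ) (p : ℕ → ℕ) (v : Finset ℕ → ℝ) : Prop where
  supp : ∀ S, v S ≠ 0 → IsArc N p S ∧ 2 ≤ S.card ∧ S.card + 2 ≤ N
  compl : ∀ S, S ⊆ range N → v (range N \ S) = v S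

theorem Sym.rot {N : ℕ} {p : ℕ → ℕ} {v : Finset ℕ → ℝ} (h : IsOrd N p) (hv : Sym N p v) (t : ℕ)
    (ht : t < N) : Sym N (rot N t p) v :=
  ⟨fun S hS => ⟨(hv.supp S hS).1.rot h t ht, (hv.supp S hS).2⟩, hv.compl⟩

/-- an arc without the first point is an interval -/
theorem isArc_notMem {N : ℕ} {p : ℕ → ℕ} (h : IsOrd N p) {S : Finset ℕ} (hS : IsArc N p S)
    (h0 : p 0 ∉ S) : ∃ i j, i ≤ j ∧ j < N ∧ S = arc p i j := by
  obtain ⟨i, j, hij, hj, rfl | rfl⟩ := hS
  · exact ⟨i, j, hij, hj, rfl⟩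
  · exfalso
    apply h0
    rw [mem_sdiff, mem_range, h.mem_arc hj (by omega)]
    exact ⟨h.lt 0 (by omega), by omega⟩

/-- an arc with the first point is the complement of an interval -/
theorem isArc_mem {N : ℕ} {p : ℕ → ℕ} (h : IsOrd N p) {S : Finset ℕ} (hS : IsArc N p S)
    (h0 : p 0 ∈ S) : ∃ i j, i ≤ j ∧ j < N ∧ S = range N \ arc p i j := by
  obtain ⟨i, j, hij, hj, rfl | rfl⟩ := hS
  · exfalso
    rw [h.mem_arc hj (by omega)] at h0
    omega
  · exact ⟨i, j, hij, hj, rfl⟩

/-- the restriction to the smaller polygon -/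
noncomputable def res (L : ℕ) (v : Finset ℕ → ℝ) (A : Finset ℕ) : ℝ :=
  if A ⊆ range L ∧ 2 ≤ A.card ∧ A.card + 2 ≤ L then v A + v (insert L A) else 0

theorem Sym.res {L : ℕ} {p : ℕ → ℕ} {v : Finset ℕ → ℝ} (h : IsOrd (L + 1) p) (h0 : p 0 = L)
    (hL : 0 < L) (hv : Sym (L + 1) p v) : Sym L (tl p) (res L v) := by
  have ht := h.tl h0
  refine ⟨fun A hA => ?_, fun A hA => ?_⟩
  · unfold Cactus.res at hA
    split_ifs at hA with hc
    · refine ⟨?_, hc.2⟩
      have hLA : L ∉ A := fun hh => absurd (mem_range.1 (hc.1 hh)) (lt_irrefl _)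
      by_cases h1 : v A = 0
      · rw [h1, zero_add] at hA
        obtain ⟨i, j, hij, hj, he⟩ := isArc_mem h (hv.supp _ hA).1
          (by rw [h0]; exact mem_insert_self _ _)
        have h2 : A = range L \ arc p i j := by
          have h3 : A = (insert L A).erase L := (erase_insert hLA).symm
          rw [h3, he]
          ext x
          simp only [mem_erase, mem_sdiff, mem_range]
          constructor
          · rintro ⟨h4, h5, h6⟩
            exact ⟨by omega, h6⟩
          · rintro ⟨h4, h5⟩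
            exact ⟨by omega, by omega, h5⟩
        rw [h2]
        exact (isArc_tl h h0 hL hij hj).compl ht
      · obtain ⟨i, j, hij, hj, he⟩ := isArc_notMem h (hv.supp _ h1).1 (by rw [h0]; exact hLA)
        rw [he]
        exact isArc_tl h h0 hL hij hj
    · exact absurd rfl hA
  · unfold Cactus.res
    have hcard : (range L \ A).card = L - A.card := by
      rw [card_sdiff_of_subset hA, card_range]
    by_cases hc : A ⊆ range L ∧ 2 ≤ A.card ∧ A.card + 2 ≤ L
    · rw [if_pos hc, if_pos ⟨sdiff_subset, by omega, by omega⟩]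
      have hLA : L ∉ A := fun hh => absurd (mem_range.1 (hc.1 hh)) (lt_irrefl _)
      have e1 : range L \ A = range (L + 1) \ insert L A := by
        ext x
        simp only [mem_sdiff, mem_range, mem_insert, not_or]
        constructor
        · rintro ⟨h1, h2⟩
          exact ⟨by omega, by omega, h2⟩
        · rintro ⟨h1, h2, h3⟩
          exact ⟨by omega, h3⟩
      have e2 : insert L (range L \ A) = range (L + 1) \ A := by
        ext x
        simp only [mem_sdiff, mem_range, mem_insert]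
        constructor
        · rintro (rfl | ⟨h1, h2⟩)
          · exact ⟨by omega, hLA⟩
          · exact ⟨by omega, h2⟩
        · rintro ⟨h1, h2⟩
          by_cases h3 : x = L
          · exact Or.inl h3
          · exact Or.inr ⟨by omega, h2⟩
      rw [e2, e1, hv.compl, hv.compl, add_comm]
      · exact hA.trans (range_subset_range.2 (by omega))
      · intro x hx
        rcases mem_insert.1 hx with rfl | hx
        · exact mem_range.2 (by omega)
        · exact mem_range.2 (by have := mem_range.1 (hA hx); omega)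
    · rw [if_neg hc, if_neg]
      rintro ⟨-, h1, h2⟩
      have h3 : A.card ≤ L := by
        have := card_le_card hA
        rwa [card_range] at this
      exact hc ⟨hA, by omega, by omega⟩

end Pool.Agent.H78.Cactus
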