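import Mathlib

/-!
# Singer for the real moduli spaces: the kernel inequality

For `0 < j, k < L` the symmetric matrix `min j k * |j - k| * (L - max j k)` has exactly one positive
eigenvalue and is negative definite on the kernel of `w ↦ ∑ j (L - j) w j`; this is the covariance
of Brownian motion in disguise.
-/

set_option autoImplicit false

open Finset

namespace Pool.Agent.H78.Cactus

/-- The Brownian covariance is positive definite. -/
theorem brownian_pos (L : ℕ) (a : ℕ → ℝ) (h0 : a 0 = 0)
    (ha : ∀ i, i + 1 < L → a i < a (i + 1)) (W : ℕ → ℝ) (hW : ∃ j, 0 < j ∧ j < L ∧ W j ≠ 0) :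
    0 < ∑ j ∈ range L, ∑ k ∈ range L, a (min j k) * (W j * W k) := by
  have hsum : ∀ m, m < L → a m = ∑ i ∈ range (L - 1), (if i < m then a (i + 1) - a i else 0) := by
    intro m hm
    rw [← Finset.sum_filter]
    have h1 : (range (L - 1)).filter (fun i => i < m) = range m := by
      ext i
      simp only [mem_filter, mem_range]
      omega
    rw [h1, Finset.sum_range_sub, h0, sub_zero]
  have hid : ∑ j ∈ range L, ∑ k ∈ range L, a (min j k) * (W j * W k) =
      ∑ i ∈ range (L - 1), (a (i + 1) - a i) * (∑ j ∈ range L, if i < j then W j else 0) ^ 2 := by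
    have h1 : ∀ j ∈ range L, ∀ k ∈ range L, a (min j k) * (W j * W k) =
        ∑ i ∈ range (L - 1), (a (i + 1) - a i) *
          ((if i < j then W j else 0) * (if i < k then W k else 0)) := by
      intro j hj k hk
      rw [mem_range] at hj hk
      rw [hsum (min j k) (by omega), Finset.sum_mul]
      refine Finset.sum_congr rfl fun i _ => ?_
      by_cases h2 : i < j
      · by_cases h3 : i < k
        · rw [if_pos (lt_min h2 h3), if_pos h2, if_pos h3]
        · rw [if_neg (fun h => h3 (lt_of_lt_of_le h (min_le_right _ _))), if_neg h3]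
          ring
      · rw [if_neg (fun h => h2 (lt_of_lt_of_le h (min_le_left _ _))), if_neg h2]
        ring
    rw [Finset.sum_congr rfl fun j hj => Finset.sum_congr rfl fun k hk => h1 j hj k hk]
    rw [Finset.sum_congr rfl fun j _ => Finset.sum_comm, Finset.sum_comm]
    refine Finset.sum_congr rfl fun i _ => ?_
    rw [sq, Finset.sum_mul_sum, Finset.mul_sum]
    refine Finset.sum_congr rfl fun j _ => ?_
    rw [Finset.mul_sum]
  rw [hid]
  have hnn : ∀ i ∈ range (L - 1),
      0 ≤ (a (i + 1) - a i) * (∑ j ∈ range L, if i < j then W j else 0) ^ 2 := by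
    intro i hi
    rw [mem_range] at hi
    exact mul_nonneg (sub_nonneg.2 (ha i (by omega)).le) (sq_nonneg _)
  rcases (Finset.sum_nonneg hnn).lt_or_eq with h | h
  · exact h
  · exfalso
    have h1 := (Finset.sum_eq_zero_iff_of_nonneg hnn).1 h.symm
    have htail : ∀ i, i + 1 < L → ∑ j ∈ range L, (if i < j then W j else 0) = 0 := by
      intro i hi
      have h2 := h1 i (mem_range.2 (by omega))
      rcases mul_eq_zero.1 h2 with h3 | h3
      · exact absurd h3 (ne_of_gt (sub_pos.2 (ha i hi)))
      · exact pow_eq_zero_iff (two_ne_zero) |>.1 h3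
    obtain ⟨j, hj0, hjL, hj⟩ := hW
    apply hj
    -- the difference of two consecutive tails
    have e1 := htail (j - 1) (by omega)
    have e2 : ∑ k ∈ range L, (if j < k then W k else 0) = 0 := by
      by_cases h4 : j + 1 < L
      · exact htail j h4
      · refine Finset.sum_eq_zero fun k hk => ?_
        rw [mem_range] at hk
        rw [if_neg (by omega)]
    have e3 : ∑ k ∈ range L, (if j - 1 < k then W k else 0) =
        ∑ k ∈ range L, (if j < k then W k else 0) + W j := by
      have e4 : ∀ k ∈ range L, (if j - 1 < k then W k else 0) =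
          (if j < k then W k else 0) + (if k = j then W j else 0) := by
        intro k _
        by_cases h5 : k = j
        · subst h5
          rw [if_pos (by omega), if_neg (lt_irrefl _), if_pos rfl, zero_add]
        · rw [if_neg h5, add_zero]
          by_cases h6 : j < k
          · rw [if_pos h6, if_pos (by omega)]
          · rw [if_neg h6, if_neg (by omega)]
      rw [Finset.sum_congr rfl e4, Finset.sum_add_distrib, Finset.sum_ite_eq' (range L) j,
        if_pos (mem_range.2 hjL)]
    rw [e1, e2, zero_add] at e3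
    exact e3.symm

/-- the kernel `min j k * |j - k| * (L - max j k)` -/
def ker3 (L j k : ℕ) : ℝ :=
  (min j k : ℕ) * ((max j k : ℕ) - (min j k : ℕ) : ℝ) * ((L : ℝ) - (max j k : ℕ))

/-- **The kernel inequality.** -/
theorem ker3_neg (L : ℕ) (w : ℕ → ℝ) (hw : ∃ j, 0 < j ∧ j < L ∧ w j ≠ 0)
    (hl : ∑ j ∈ range L, (j : ℝ) * ((L : ℝ) - j) * w j = 0) :
    ∑ j ∈ range L, ∑ k ∈ range L, ker3 L j k * (w j * w k) < 0 := by
  obtain ⟨j₀, hj0, hjL, hj⟩ := hw
  have hL : (0 : ℝ) < L := by exact_mod_cast (by omega : 0 < L)
  set y : ℕ → ℝ := fun j => (j : ℝ) / ((L : ℝ) - j) with hy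
  set W : ℕ → ℝ := fun j => ((L : ℝ) - j) ^ 2 * w j with hWdef
  have hpos : ∀ j, j < L → (0 : ℝ) < (L : ℝ) - j := fun j hj =>
    sub_pos.2 (by exact_mod_cast hj)
  have hy0 : ∀ j, j < L → 0 ≤ y j := fun j hj => div_nonneg (Nat.cast_nonneg _) (hpos j hj).le
  have hylt : ∀ j k, j < k → k < L → y j < y k := by
    intro j k hjk hk
    rw [hy]
    simp only
    rw [div_lt_div_iff₀ (hpos j (by omega)) (hpos k hk)]
    have h1 : (j : ℝ) < k := by exact_mod_cast hjk
    nlinarith
  have hb := brownian_pos L (fun j => y j ^ 2) (by simp [hy])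
    (fun i hi => by
      have h1 := hylt i (i + 1) (by omega) hi
      have h2 := hy0 i (by omega)
      have h3 := hy0 (i + 1) hi
      nlinarith) W
    ⟨j₀, hj0, hjL, mul_ne_zero (pow_ne_zero _ (hpos j₀ hjL).ne') hj⟩
  have hkey : ∀ j ∈ range L, ∀ k ∈ range L, (L : ℝ) * (ker3 L j k * (w j * w k)) =
      (y j * W j) * (y k * W k) - y (min j k) ^ 2 * (W j * W k) := by
    have main : ∀ j k, j ≤ k → k < L → (L : ℝ) * (ker3 L j k * (w j * w k)) =
        (y j * W j) * (y k * W k) - y (min j k) ^ 2 * (W j * W k) := by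
      intro j k hjk hk
      unfold ker3
      rw [min_eq_left hjk, max_eq_right hjk]
      simp only [hy, hWdef]
      have h1 := (hpos j (by omega)).ne'
      have h2 := (hpos k hk).ne'
      field_simp
      ring
    intro j hj k hk
    rw [mem_range] at hj hk
    rcases le_total j k with h | h
    · exact main j k h hk
    · have h1 := main k j h hj
      rw [show ker3 L j k = ker3 L k j by unfold ker3; rw [min_comm, max_comm],
        mul_comm (w j), h1, min_comm j k]
      ring
  have hsum : (L : ℝ) * ∑ j ∈ range L, ∑ k ∈ range L, ker3 L j k * (w j * w k) =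
      (∑ j ∈ range L, y j * W j) ^ 2 -
        ∑ j ∈ range L, ∑ k ∈ range L, y (min j k) ^ 2 * (W j * W k) := by
    rw [Finset.mul_sum, sq, Finset.sum_mul_sum, ← Finset.sum_sub_distrib]
    refine Finset.sum_congr rfl fun j hj => ?_
    rw [Finset.mul_sum, ← Finset.sum_sub_distrib]
    exact Finset.sum_congr rfl fun k hk => hkey j hj k hk
  have hz : ∑ j ∈ range L, y j * W j = 0 := by
    rw [← hl]
    refine Finset.sum_congr rfl fun j hj => ?_
    rw [mem_range] at hj
    simp only [hy, hWdef]
    have h1 := (hpos j hj).ne'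
    field_simp
  rw [hz, zero_pow two_ne_zero, zero_sub] at hsum
  have : (L : ℝ) * ∑ j ∈ range L, ∑ k ∈ range L, ker3 L j k * (w j * w k) < 0 := by
    rw [hsum]
    exact neg_neg_of_pos hb
  by_contra h
  rw [not_lt] at h
  exact absurd (mul_nonneg hL.le h) (not_le.2 this)

end Pool.Agent.H78.Cactus
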