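import Pool.Agent.H78.Cactus.Arc
import Pool.Agent.H78.Cactus.Brown

/-!
# Singer for the real moduli spaces: the quadratic form and the forgetful map
-/

set_option autoImplicit false

open Finset

namespace Pool.Agent.H78.Cactus

/-- sums over the subsets of `range (L + 1)` -/
theorem sum_powerset_succ (L : ℕ) (f : Finset ℕ → ℝ) :
    ∑ S ∈ (range (L + 1)).powerset, f S = ∑ A ∈ (range L).powerset, (f A + f (insert L A)) := by
  rw [Finset.range_add_one, Finset.sum_powerset_insert Finset.notMem_range_self,
    Finset.sum_add_distrib]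

/-- trivial splits cross nothing -/
theorem not_crosses_left {L : ℕ} {A B : Finset ℕ} (hA : A ⊆ range L)
    (h : ¬ (2 ≤ A.card ∧ A.card + 2 ≤ L)) : ¬ Crosses L A B := by
  intro hc
  apply h
  constructor
  · obtain ⟨i, -, h1, h2⟩ := hc true true
    obtain ⟨j, -, h3, h4⟩ := hc true false
    have hne : i ≠ j := by
      rintro rfl
      rw [h2] at h4
      exact absurd h4 (by decide)
    have : ({i, j} : Finset ℕ) ⊆ A := by
      intro x hx
      rcases mem_insert.1 hx with rfl | hx
      · exact of_decide_eq_true h1
      · rw [mem_singleton] at hx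
        subst hx
        exact of_decide_eq_true h3
    have h5 := card_le_card this
    rwa [card_pair hne] at h5
  · obtain ⟨i, hi, h1, h2⟩ := hc false true
    obtain ⟨j, hj, h3, h4⟩ := hc false false
    have hne : i ≠ j := by
      rintro rfl
      rw [h2] at h4
      exact absurd h4 (by decide)
    have : ({i, j} : Finset ℕ) ⊆ range L \ A := by
      intro x hx
      rcases mem_insert.1 hx with rfl | hx
      · exact mem_sdiff.2 ⟨mem_range.2 hi, of_decide_eq_false h1⟩
      · rw [mem_singleton] at hx
        subst hx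
        exact mem_sdiff.2 ⟨mem_range.2 hj, of_decide_eq_false h3⟩
    have h5 := card_le_card this
    rw [card_pair hne, card_sdiff_of_subset hA, card_range] at h5
    have h6 : A.card ≤ L := by
      have := card_le_card hA
      rwa [card_range] at this
    omega

theorem insert_inter_range {L : ℕ} {A : Finset ℕ} (hA : A ⊆ range L) :
    insert L A ∩ range L = A := by
  ext x
  simp only [mem_inter, mem_insert, mem_range]
  constructor
  · rintro ⟨rfl | h1, h2⟩
    · exact absurd h2 (lt_irrefl _)
    · exact h1
  · intro h1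
    exact ⟨Or.inr h1, mem_range.1 (hA h1)⟩

/-- the quadratic form of the next form -/
theorem Q_next (L : ℕ) {T : Finset ℕ → Finset ℕ → ℤ} (hT : IsForm L T) (M : ℕ)
    (v : Finset ℕ → ℝ) :
    Q (L + 1) (nextT L T M) v = M * Q L T (res L v) + Q (L + 1) (Tz L) v := by
  unfold Q
  have h1 : ∀ S S' : Finset ℕ, ((nextT L T M S S' : ℤ) : ℝ) * (v S * v S') =
      M * ((T (S ∩ range L) (S' ∩ range L) : ℝ) * (v S * v S')) + (Tz L S S' : ℝ) * (v S * v S') := by
    intro S S'
    unfold nextT
    push_cast
    ring
  simp only [h1, Finset.sum_add_distrib, ← Finset.mul_sum]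
  congr 2
  rw [sum_powerset_succ]
  refine Finset.sum_congr rfl fun A hA => ?_
  rw [mem_powerset] at hA
  rw [sum_powerset_succ, sum_powerset_succ, ← Finset.sum_add_distrib]
  refine Finset.sum_congr rfl fun B hB => ?_
  rw [mem_powerset] at hB
  rw [insert_inter_range hA, insert_inter_range hB, inter_eq_left.2 hA, inter_eq_left.2 hB]
  by_cases hcA : 2 ≤ A.card ∧ A.card + 2 ≤ L
  · by_cases hcB : 2 ≤ B.card ∧ B.card + 2 ≤ L
    · have e1 : res L v A = v A + v (insert L A) := if_pos ⟨hA, hcA⟩
      have e2 : res L v B = v B + v (insert L B) := if_pos ⟨hB, hcB⟩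
      rw [e1, e2]
      ring
    · have h2 : T A B = 0 := by
        rw [hT.symm]
        exact hT.zero _ _ (not_crosses_left hB hcB)
      rw [h2]
      simp
  · have h2 : T A B = 0 := hT.zero _ _ (not_crosses_left hA hcA)
    rw [h2]
    simp

/-- the form `Tz` for two sets without the last point -/
theorem Tz_low {L : ℕ} {A B : Finset ℕ} (hA : A ⊆ range L) (hB : B ⊆ range L) :
    Tz L A B = -(((A ∩ B).card * (A \ B).card * (B \ A).card : ℕ) : ℤ) := by
  have hLA : L ∉ A := fun hh => absurd (mem_range.1 (hA hh)) (lt_irrefl _)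
  have hLB : L ∉ B := fun hh => absurd (mem_range.1 (hB hh)) (lt_irrefl _)
  unfold Tz
  rw [decide_eq_false hLA, decide_eq_false hLB]
  have h1 : (univ : Finset (Bool × Bool)).erase (false, false) =
      {(true, true), (true, false), (false, true)} := by decide
  have e1 : cn L A B (true, true) = (A ∩ B).card := by
    unfold cn
    congr 1
    ext i
    simp only [mem_filter, mem_range, decide_eq_true_eq, mem_inter]
    exact ⟨fun h => h.2, fun h => ⟨mem_range.1 (hA h.1), h⟩⟩
  have e2 : cn L A B (true, false) = (A \ B).card := by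
    unfold cn
    congr 1
    ext i
    simp only [mem_filter, mem_range, decide_eq_true_eq, decide_eq_false_iff_not, mem_sdiff]
    exact ⟨fun h => h.2, fun h => ⟨mem_range.1 (hA h.1), h⟩⟩
  have e3 : cn L A B (false, true) = (B \ A).card := by
    unfold cn
    congr 1
    ext i
    simp only [mem_filter, mem_range, decide_eq_true_eq, decide_eq_false_iff_not, mem_sdiff]
    exact ⟨fun h => ⟨h.2.2, h.2.1⟩, fun h => ⟨mem_range.1 (hB h.1), h.2, h.1⟩⟩
  rw [h1, Finset.prod_insert (by decide), Finset.prod_insert (by decide), Finset.prod_singleton,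
    e1, e2, e3]
  push_cast
  ring

/-- for symmetric functions, half of the splits are enough -/
theorem Q_half (L : ℕ) (T : Finset ℕ → Finset ℕ → ℤ)
    (hs : ∀ S S', T S S' = T S' S)
    (hc : ∀ S S', S ⊆ range (L + 1) → T (range (L + 1) \ S) S' = T S S') (v : Finset ℕ → ℝ)
    (hv : ∀ S, S ⊆ range (L + 1) → v (range (L + 1) \ S) = v S) :
    Q (L + 1) T v = 4 * Q L T v := by
  have hsum : ∀ g : Finset ℕ → ℝ, (∀ S, S ⊆ range (L + 1) → g (range (L + 1) \ S) = g S) →
      ∑ S ∈ (range (L + 1)).powerset, g S = 2 * ∑ A ∈ (range L).powerset, g A := by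
    intro g hg
    rw [sum_powerset_succ, Finset.sum_add_distrib, two_mul]
    congr 1
    refine Finset.sum_bij (fun A _ => range L \ A) ?_ ?_ ?_ ?_
    · intro A _
      exact mem_powerset.2 sdiff_subset
    · intro A hA B hB hAB
      rw [mem_powerset] at hA hB
      rw [← Finset.sdiff_sdiff_eq_self hA, hAB, Finset.sdiff_sdiff_eq_self hB]
    · intro A hA
      rw [mem_powerset] at hA
      exact ⟨range L \ A, mem_powerset.2 sdiff_subset, Finset.sdiff_sdiff_eq_self hA⟩
    · intro A hA
      rw [mem_powerset] at hA
      have hLA : L ∉ A := fun hh => absurd (mem_range.1 (hA hh)) (lt_irrefl _)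
      have e1 : range L \ A = range (L + 1) \ insert L A := by
        ext x
        simp only [mem_sdiff, mem_range, mem_insert, not_or]
        constructor
        · rintro ⟨h1, h2⟩
          exact ⟨by omega, by omega, h2⟩
        · rintro ⟨h1, h2, h3⟩
          exact ⟨by omega, h3⟩
      rw [e1, hg]
      intro x hx
      rcases mem_insert.1 hx with rfl | hx
      · exact mem_range.2 (by omega)
      · exact mem_range.2 (by have := mem_range.1 (hA hx); omega)
  unfold Q
  rw [hsum]
  · have h2 : ∀ A ∈ (range L).powerset, ∑ S' ∈ (range (L + 1)).powerset,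
        (T A S' : ℝ) * (v A * v S') = 2 * ∑ B ∈ (range L).powerset, (T A B : ℝ) * (v A * v B) := by
      intro A _
      refine hsum _ fun S hS => ?_
      rw [hs, hc S A hS, hs, hv S hS]
    rw [Finset.sum_congr rfl h2, ← Finset.mul_sum]
    ring
  · intro S hS
    refine Finset.sum_congr rfl fun S' _ => ?_
    rw [hc S S' hS, hv S hS]

end Pool.Agent.H78.Cactus
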