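import Pool.Agent.H78.Cactus.KerQ

/-!
# Singer for the real moduli spaces: the kernel of the forgetful map
-/

set_option autoImplicit false

open Finset

namespace Pool.Agent.H78.Cactus

section

variable {L : ℕ} {p : ℕ → ℕ} {v : Finset ℕ → ℝ}

/-- the sets without the last point in the support of a function in the kernel -/
theorem ker_supp (h : IsOrd (L + 1) p) (h0 : p 0 = L) (hv : Sym (L + 1) p v)
    (hres : res L v = 0) {A : Finset ℕ} (hA : A ⊆ range L) (hvA : v A ≠ 0) :
    ∃ j, 0 < j ∧ j < L ∧ (A = arc p 0 j ∨ A = arc p j L) := by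
  have hLA : L ∉ A := fun hh => absurd (mem_range.1 (hA hh)) (lt_irrefl _)
  obtain ⟨harc, hc1, hc2⟩ := hv.supp A hvA
  obtain ⟨i, j, hij, hj, he⟩ := isArc_notMem h harc (by rw [h0]; exact hLA)
  have hcard : A.card = j - i := by rw [he, h.card_arc hj]
  by_cases hi : i = 0
  · subst hi
    exact ⟨j, by omega, by omega, Or.inl he⟩
  · by_cases hjL : j = L
    · subst hjL
      exact ⟨i, by omega, by omega, Or.inr he⟩
    · exfalso
      have h1 : res L v A = v A + v (insert L A) := if_pos ⟨hA, hc1, by omega⟩
      rw [hres] at h1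
      have h2 : v (insert L A) ≠ 0 := by
        intro h3
        rw [h3, add_zero] at h1
        exact hvA h1.symm
      obtain ⟨i', j', hij', hj', he'⟩ := isArc_mem h (hv.supp _ h2).1
        (by rw [h0]; exact mem_insert_self _ _)
      -- membership of the points in terms of positions
      have key : ∀ k < L + 1, (k = 0 ∨ (i < k ∧ k ≤ j)) ↔ ¬ (i' < k ∧ k ≤ j') := by
        intro k hk
        have e1 : p k ∈ insert L A ↔ (k = 0 ∨ (i < k ∧ k ≤ j)) := by
          rw [mem_insert, he, h.mem_arc hj hk, ← h0]
          constructor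
          · rintro (h5 | h5)
            · exact Or.inl (h.inj _ _ hk (by omega) h5)
            · exact Or.inr h5
          · rintro (h5 | h5)
            · exact Or.inl (by rw [h5])
            · exact Or.inr h5
        have e2 : p k ∈ range (L + 1) \ arc p i' j' ↔ ¬ (i' < k ∧ k ≤ j') := by
          rw [mem_sdiff, mem_range, h.mem_arc hj' hk]
          simp only [h.lt k hk, true_and]
        rw [← e1, ← e2, he']
      have k1 := key 1 (by omega)
      have k2 := key L (by omega)
      have k3 := key (i + 1) (by omega)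
      omega

/-- sums over the sets without the last point -/
theorem ker_sum (h : IsOrd (L + 1) p) (h0 : p 0 = L) (hv : Sym (L + 1) p v)
    (hres : res L v = 0) (F : Finset ℕ → ℝ) :
    ∑ A ∈ (range L).powerset, v A * F A = ∑ j ∈ range L, v (arc p 0 j) * F (arc p 0 j) +
      ∑ j ∈ range L, v (arc p j L) * F (arc p j L) := by
  have hinj1 : Set.InjOn (fun j => arc p 0 j) (range L : Finset ℕ) := by
    intro a ha b hb hab
    simp only [coe_range, Set.mem_Iio] at ha hb
    have h1 := congrArg Finset.card hab
    simp only at h1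
    rw [h.card_arc (by omega), h.card_arc (by omega)] at h1
    omega
  have hinj2 : Set.InjOn (fun j => arc p j L) (range L : Finset ℕ) := by
    intro a ha b hb hab
    simp only [coe_range, Set.mem_Iio] at ha hb
    have h1 := congrArg Finset.card hab
    simp only at h1
    rw [h.card_arc (by omega), h.card_arc (by omega)] at h1
    omega
  rw [← Finset.sum_image hinj1 (f := fun A => v A * F A),
    ← Finset.sum_image hinj2 (f := fun A => v A * F A), ← Finset.sum_union]
  · symm
    refine Finset.sum_subset ?_ ?_
    · intro A hA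
      rw [mem_powerset]
      rcases mem_union.1 hA with hA | hA
      · obtain ⟨j, hj, rfl⟩ := mem_image.1 hA
        rw [mem_range] at hj
        exact arc_subset_range h h0 (by omega)
      · obtain ⟨j, hj, rfl⟩ := mem_image.1 hA
        rw [mem_range] at hj
        exact arc_subset_range h h0 (by omega)
    · intro A hA hA'
      rw [mem_powerset] at hA
      by_cases hvA : v A = 0
      · rw [hvA, zero_mul]
      · exfalso
        obtain ⟨j, -, hj, he⟩ := ker_supp h h0 hv hres hA hvA
        apply hA'
        rw [mem_union]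
        rcases he with he | he
        · exact Or.inl (mem_image.2 ⟨j, mem_range.2 hj, he.symm⟩)
        · exact Or.inr (mem_image.2 ⟨j, mem_range.2 hj, he.symm⟩)
  · rw [Finset.disjoint_left]
    intro A hA hA'
    obtain ⟨j, hj, rfl⟩ := mem_image.1 hA
    obtain ⟨k, hk, hk'⟩ := mem_image.1 hA'
    rw [mem_range] at hj hk
    have e1 : ∀ l < L + 1, (k < l ∧ l ≤ L) ↔ (0 < l ∧ l ≤ j) := by
      intro l hl
      rw [← h.mem_arc (by omega) hl, ← h.mem_arc (show j < L + 1 by omega) hl]
      rw [hk']
    have k1 := e1 L (by omega)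
    omega

/-- the values `Tz` on the arcs -/
theorem Tz_arc (h : IsOrd (L + 1) p) (h0 : p 0 = L) {j k : ℕ} (hj : j < L) (hk : k < L) :
    Tz L (arc p 0 j) (arc p k L) = -((if k < j then k * (j - k) * (L - j) else 0 : ℕ) : ℤ) := by
  rw [Tz_low (arc_subset_range h h0 (by omega)) (arc_subset_range h h0 (by omega))]
  have e1 : arc p 0 j ∩ arc p k L = arc p k j := by
    refine h.ext (inter_subset_left.trans (h.arc_subset (by omega))) (h.arc_subset (by omega))
      fun l hl => ?_
    rw [mem_inter, h.mem_arc (by omega) hl, h.mem_arc (by omega) hl, h.mem_arc (by omega) hl]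
    omega
  have e2 : arc p 0 j \ arc p k L = arc p 0 (min j k) := by
    refine h.ext (sdiff_subset.trans (h.arc_subset (by omega))) (h.arc_subset (by omega))
      fun l hl => ?_
    rw [mem_sdiff, h.mem_arc (by omega) hl, h.mem_arc (by omega) hl, h.mem_arc (by omega) hl]
    omega
  have e3 : arc p k L \ arc p 0 j = arc p (max j k) L := by
    refine h.ext (sdiff_subset.trans (h.arc_subset (by omega))) (h.arc_subset (by omega))
      fun l hl => ?_
    rw [mem_sdiff, h.mem_arc (by omega) hl, h.mem_arc (by omega) hl, h.mem_arc (by omega) hl]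
    omega
  rw [e1, e2, e3, h.card_arc (by omega), h.card_arc (by omega), h.card_arc (by omega)]
  congr 2
  split_ifs with hkj
  · rw [min_eq_right hkj.le, max_eq_left hkj.le, Nat.sub_zero]
    ring
  · rw [Nat.sub_eq_zero_of_le (not_lt.1 hkj)]
    ring

theorem Tz_arc0 (h : IsOrd (L + 1) p) (h0 : p 0 = L) {j k : ℕ} (hj : j < L) (hk : k < L) :
    Tz L (arc p 0 j) (arc p 0 k) = 0 := by
  rw [Tz_low (arc_subset_range h h0 (by omega)) (arc_subset_range h h0 (by omega))]
  have hsub : ∀ a b, a ≤ b → b < L → arc p 0 a ⊆ arc p 0 b := by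
    intro a b hab _
    exact Finset.image_subset_image (Finset.Ioc_subset_Ioc_right hab)
  rcases le_total j k with hjk | hjk
  · rw [Finset.sdiff_eq_empty_iff_subset.2 (hsub j k hjk hk)]
    simp
  · rw [Finset.sdiff_eq_empty_iff_subset.2 (hsub k j hjk hj)]
    simp

theorem Tz_arcL (h : IsOrd (L + 1) p) (h0 : p 0 = L) {j k : ℕ} :
    Tz L (arc p j L) (arc p k L) = 0 := by
  rw [Tz_low (arc_subset_range h h0 (by omega)) (arc_subset_range h h0 (by omega))]
  have hsub : ∀ a b, a ≤ b → arc p b L ⊆ arc p a L := by
    intro a b hab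
    exact Finset.image_subset_image (Finset.Ioc_subset_Ioc_left hab)
  rcases le_total j k with hjk | hjk
  · rw [Finset.sdiff_eq_empty_iff_subset.2 (hsub j k hjk)]
    simp
  · rw [Finset.sdiff_eq_empty_iff_subset.2 (hsub k j hjk)]
    simp

/-- the coordinates on the kernel -/
noncomputable def wc (L : ℕ) (p : ℕ → ℕ) (v : Finset ℕ → ℝ) (j : ℕ) : ℝ :=
  if j + 1 < L then v (arc p j L) else - v (arc p 0 j)

/-- the two values for one cut -/
theorem ker_pair (h : IsOrd (L + 1) p) (h0 : p 0 = L) (hv : Sym (L + 1) p v)
    (hres : res L v = 0) {j : ℕ} (hj : 2 ≤ j) (hjL : j < L) :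
    v (arc p 0 j) = - wc L p v j := by
  unfold wc
  split_ifs with h1
  · have hsub : arc p 0 j ⊆ range L := arc_subset_range h h0 (by omega)
    have hc := h.card_arc (i := 0) (j := j) (by omega)
    have h2 : res L v (arc p 0 j) = v (arc p 0 j) + v (insert L (arc p 0 j)) :=
      if_pos ⟨hsub, by omega, by omega⟩
    have h3 : insert L (arc p 0 j) = range (L + 1) \ arc p j L := by
      refine h.ext ?_ sdiff_subset fun l hl => ?_
      · intro x hx
        rcases mem_insert.1 hx with rfl | hx
        · exact mem_range.2 (by omega)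
        · exact mem_range.2 (by have := mem_range.1 (hsub hx); omega)
      · rw [mem_insert, mem_sdiff, mem_range, h.mem_arc (by omega) hl, h.mem_arc (by omega) hl]
        simp only [h.lt l hl, true_and]
        constructor
        · rintro (h5 | h5)
          · rw [← h0] at h5
            have := h.inj _ _ hl (by omega) h5
            omega
          · omega
        · intro h5
          by_cases h6 : l = 0
          · left
            rw [h6, h0]
          · right
            omega
    rw [hres, h3, hv.compl _ (h.arc_subset (by omega))] at h2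
    have h4 : (0 : Finset ℕ → ℝ) (arc p 0 j) = 0 := rfl
    rw [h4] at h2
    linarith
  · rw [neg_neg]

/-- the quadratic form on the kernel -/
theorem Q_ker (h : IsOrd (L + 1) p) (h0 : p 0 = L) (hv : Sym (L + 1) p v)
    (hres : res L v = 0) :
    Q (L + 1) (Tz L) v =
      4 * ∑ j ∈ range L, ∑ k ∈ range L, ker3 L j k * (wc L p v j * wc L p v k) := by
  rw [Q_half L (Tz L) (Tz_symm L) (fun S S' _ => Tz_compl L S S') v hv.compl]
  congr 1
  set hk : ℕ → ℕ → ℝ := fun j k => ((if k < j then k * (j - k) * (L - j) else 0 : ℕ) : ℝ) with hhk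
  have hker : ∀ j ∈ range L, ∀ k ∈ range L, ker3 L j k = hk j k + hk k j := by
    have main : ∀ j k, j < L → k ≤ j → ker3 L j k = hk j k + hk k j := by
      intro j k hj hkj
      unfold ker3
      rw [min_eq_right hkj, max_eq_left hkj]
      simp only [hhk]
      rw [if_neg (not_lt.2 hkj)]
      rcases hkj.lt_or_eq with h1 | h1
      · rw [if_pos h1]
        push_cast [Nat.cast_sub h1.le, Nat.cast_sub hj.le]
        ring
      · rw [if_neg (by omega), h1]
        simp
    intro j hj k hkk
    rw [mem_range] at hj hkk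
    rcases le_total k j with h1 | h1
    · exact main j k hj h1
    · rw [show ker3 L j k = ker3 L k j by unfold ker3; rw [min_comm, max_comm],
        main k j hkk h1, add_comm]
  -- the left side
  have hQ : Q L (Tz L) v = ∑ A ∈ (range L).powerset, v A *
      ∑ B ∈ (range L).powerset, v B * (Tz L A B : ℝ) := by
    unfold Q
    refine Finset.sum_congr rfl fun A _ => ?_
    rw [Finset.mul_sum]
    refine Finset.sum_congr rfl fun B _ => ?_
    ring
  rw [hQ, ker_sum h h0 hv hres]
  have e1 : ∑ j ∈ range L, v (arc p 0 j) * ∑ B ∈ (range L).powerset,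
      v B * (Tz L (arc p 0 j) B : ℝ) =
      ∑ j ∈ range L, ∑ k ∈ range L, hk j k * (wc L p v j * wc L p v k) := by
    refine Finset.sum_congr rfl fun j hj => ?_
    rw [mem_range] at hj
    rw [ker_sum h h0 hv hres]
    have e2 : ∑ k ∈ range L, v (arc p 0 k) * (Tz L (arc p 0 j) (arc p 0 k) : ℝ) = 0 := by
      refine Finset.sum_eq_zero fun k hk' => ?_
      rw [Tz_arc0 h h0 hj (mem_range.1 hk')]
      simp
    rw [e2, zero_add, Finset.mul_sum]
    refine Finset.sum_congr rfl fun k hk' => ?_
    rw [mem_range] at hk'
    rw [Tz_arc h h0 hj hk']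
    simp only [hhk]
    by_cases hkj : k < j
    · rw [if_pos hkj]
      by_cases hk0 : k = 0
      · subst hk0
        simp
      · have e3 : v (arc p k L) = wc L p v k := by
          unfold wc
          rw [if_pos (by omega)]
        rw [ker_pair h h0 hv hres (by omega) hj, e3]
        push_cast
        ring
    · rw [if_neg hkj]
      simp
  have e2 : ∑ j ∈ range L, v (arc p j L) * ∑ B ∈ (range L).powerset,
      v B * (Tz L (arc p j L) B : ℝ) =
      ∑ j ∈ range L, ∑ k ∈ range L, hk k j * (wc L p v j * wc L p v k) := by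
    refine Finset.sum_congr rfl fun j hj => ?_
    rw [mem_range] at hj
    rw [ker_sum h h0 hv hres]
    have e2 : ∑ k ∈ range L, v (arc p k L) * (Tz L (arc p j L) (arc p k L) : ℝ) = 0 := by
      refine Finset.sum_eq_zero fun k _ => ?_
      rw [Tz_arcL h h0]
      simp
    rw [e2, add_zero, Finset.mul_sum]
    refine Finset.sum_congr rfl fun k hk' => ?_
    rw [mem_range] at hk'
    rw [Tz_symm, Tz_arc h h0 hk' hj]
    simp only [hhk]
    by_cases hkj : j < k
    · rw [if_pos hkj]
      by_cases hk0 : j = 0
      · subst hk0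
        simp
      · have e3 : v (arc p j L) = wc L p v j := by
          unfold wc
          rw [if_pos (by omega)]
        rw [ker_pair h h0 hv hres (by omega) hk', e3]
        push_cast
        ring
    · rw [if_neg hkj]
      simp
  rw [e1, e2, ← Finset.sum_add_distrib]
  refine Finset.sum_congr rfl fun j hj => ?_
  rw [← Finset.sum_add_distrib]
  refine Finset.sum_congr rfl fun k hk' => ?_
  rw [hker j hj k hk']
  ring

/-- the form is negative on the kernel -/
theorem Q_ker_neg (h : IsOrd (L + 1) p) (h0 : p 0 = L) (hv : Sym (L + 1) p v)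
    (hres : res L v = 0) (hv0 : v ≠ 0)
    (hl : ∑ j ∈ range L, (j : ℝ) * ((L : ℝ) - j) * wc L p v j = 0) :
    Q (L + 1) (Tz L) v < 0 := by
  rw [Q_ker h h0 hv hres]
  have hw : ∃ j, 0 < j ∧ j < L ∧ wc L p v j ≠ 0 := by
    obtain ⟨A, hA, hvA⟩ : ∃ A, A ⊆ range L ∧ v A ≠ 0 := by
      obtain ⟨S, hS⟩ : ∃ S, v S ≠ 0 := by
        by_contra hne
        push Not at hne
        exact hv0 (funext hne)
      have hsub : S ⊆ range (L + 1) := (hv.supp S hS).1.subset h
      by_cases hLS : L ∈ S
      · refine ⟨range (L + 1) \ S, ?_, ?_⟩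
        · intro x hx
          rw [mem_sdiff, mem_range] at hx
          rw [mem_range]
          have : x ≠ L := fun h1 => hx.2 (h1 ▸ hLS)
          omega
        · rw [hv.compl S hsub]
          exact hS
      · refine ⟨S, ?_, hS⟩
        intro x hx
        have h1 := mem_range.1 (hsub hx)
        rw [mem_range]
        have : x ≠ L := fun h2 => hLS (h2 ▸ hx)
        omega
    obtain ⟨j, hj0, hjL, he⟩ := ker_supp h h0 hv hres hA hvA
    refine ⟨j, hj0, hjL, ?_⟩
    obtain ⟨-, hc1, hc2⟩ := hv.supp A hvA
    rcases he with he | he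
    · rw [he] at hvA hc1 hc2
      rw [h.card_arc (by omega)] at hc1
      rw [ker_pair h h0 hv hres (by omega) hjL] at hvA
      exact fun h1 => hvA (by rw [h1, neg_zero])
    · rw [he] at hvA hc1 hc2
      rw [h.card_arc (by omega)] at hc1
      unfold wc
      rw [if_pos (by omega)]
      exact hvA
  have := ker3_neg L (wc L p v) hw hl
  linarith

end

end Pool.Agent.H78.Cactus
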