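import Mathlib

/-!
# Singer for the real moduli spaces: the forms on the splits

`T S S'` is negative if the splits `S`, `S'` of the points `0, ..., N - 1` cross, zero otherwise.
-/

set_option autoImplicit false

open Finset

namespace Pool.Agent.H78.Cactus

/-- all four cells of the pair of splits `S`, `S'` of `range N` are nonempty -/
def Crosses (N : ℕ) (S S' : Finset ℕ) : Prop :=
  ∀ a b : Bool, ∃ i < N, decide (i ∈ S) = a ∧ decide (i ∈ S') = b

/-- a form on the splits of `range N` -/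
structure IsForm (N : ℕ) (T : Finset ℕ → Finset ℕ → ℤ) : Prop where
  symm : ∀ S S', T S S' = T S' S
  compl : ∀ S S', S ⊆ range N → T (range N \ S) S' = T S S'
  neg : ∀ S S', Crosses N S S' → T S S' < 0
  zero : ∀ S S', ¬ Crosses N S S' → T S S' = 0

/-- the number of points below `z` in a cell -/
def cn (z : ℕ) (S S' : Finset ℕ) (q : Bool × Bool) : ℕ :=
  ((range z).filter fun i => decide (i ∈ S) = q.1 ∧ decide (i ∈ S') = q.2).card

/-- minus the number of triples of points below `z` which form with `z` a system of representatives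
of the four cells -/
def Tz (z : ℕ) (S S' : Finset ℕ) : ℤ :=
  -((∏ q ∈ (univ : Finset (Bool × Bool)).erase (decide (z ∈ S), decide (z ∈ S')),
    cn z S S' q : ℕ) : ℤ)

theorem Tz_nonpos (z : ℕ) (S S' : Finset ℕ) : Tz z S S' ≤ 0 := by
  unfold Tz
  have : (0 : ℤ) ≤ ((∏ q ∈ (univ : Finset (Bool × Bool)).erase (decide (z ∈ S), decide (z ∈ S')),
    cn z S S' q : ℕ) : ℤ) := Int.natCast_nonneg _
  linarith

theorem Tz_symm (z : ℕ) (S S' : Finset ℕ) : Tz z S S' = Tz z S' S := by
  unfold Tz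
  congr 2
  refine Finset.prod_bij (fun q _ => (q.2, q.1)) ?_ ?_ ?_ ?_
  · rintro ⟨a, b⟩ h
    simp only [mem_erase, mem_univ, and_true, ne_eq, Prod.mk.injEq, not_and] at h ⊢
    intro h1 h2
    exact h h2 h1
  · rintro ⟨a, b⟩ _ ⟨c, d⟩ _ h
    simp only [Prod.mk.injEq] at h ⊢
    exact ⟨h.2, h.1⟩
  · rintro ⟨a, b⟩ h
    refine ⟨(b, a), ?_, rfl⟩
    simp only [mem_erase, mem_univ, and_true, ne_eq, Prod.mk.injEq, not_and] at h ⊢
    intro h1 h2
    exact h h2 h1
  · rintro ⟨a, b⟩ _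
    unfold cn
    congr 1
    ext i
    simp only [mem_filter, mem_range]
    tauto

theorem Tz_compl (z : ℕ) (S S' : Finset ℕ) : Tz z (range (z + 1) \ S) S' = Tz z S S' := by
  unfold Tz
  congr 2
  have hdz : ∀ i < z + 1, decide (i ∈ range (z + 1) \ S) = !decide (i ∈ S) := by
    intro i hi
    by_cases h : i ∈ S
    · simp [h]
    · simp [h, hi]
  refine Finset.prod_bij (fun q _ => (!q.1, q.2)) ?_ ?_ ?_ ?_
  · rintro ⟨a, b⟩ h
    rw [hdz z (Nat.lt_succ_self z)] at h
    simp only [mem_erase, mem_univ, and_true, ne_eq, Prod.mk.injEq, not_and] at h ⊢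
    intro h1 h2
    refine h ?_ h2
    rw [← h1, Bool.not_not]
  · rintro ⟨a, b⟩ _ ⟨c, d⟩ _ h
    simp only [Prod.mk.injEq, Bool.not_inj_iff] at h ⊢
    exact h
  · rintro ⟨a, b⟩ h
    refine ⟨(!a, b), ?_, by simp⟩
    rw [hdz z (Nat.lt_succ_self z)]
    simp only [mem_erase, mem_univ, and_true, ne_eq, Prod.mk.injEq, not_and] at h ⊢
    intro h1 h2
    exact h (Bool.not_inj_iff.1 h1) h2
  · rintro ⟨a, b⟩ _
    unfold cn
    congr 1
    ext i
    simp only [mem_filter, mem_range]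
    constructor
    · rintro ⟨h1, h2, h3⟩
      rw [hdz i (by omega)] at h2
      exact ⟨h1, by rw [← h2, Bool.not_not], h3⟩
    · rintro ⟨h1, h2, h3⟩
      rw [hdz i (by omega)]
      exact ⟨h1, by rw [h2, Bool.not_not], h3⟩

theorem Tz_neg (z : ℕ) (S S' : Finset ℕ) (h : Crosses (z + 1) S S') : Tz z S S' < 0 := by
  unfold Tz
  rw [neg_lt_zero]
  rw [Nat.cast_pos]
  refine Finset.prod_pos ?_
  rintro ⟨a, b⟩ hq
  obtain ⟨i, hi, h1, h2⟩ := h a b
  have hne : i ≠ z := by
    rintro rfl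
    apply (mem_erase.1 hq).1
    rw [← h1, ← h2]
  unfold cn
  refine Finset.card_pos.2 ⟨i, ?_⟩
  rw [mem_filter, mem_range]
  exact ⟨by omega, h1, h2⟩

theorem Tz_zero (z : ℕ) (S S' : Finset ℕ) (h : ¬ Crosses (z + 1) S S') : Tz z S S' = 0 := by
  unfold Crosses at h
  push Not at h
  obtain ⟨a, b, hab⟩ := h
  unfold Tz
  rw [neg_eq_zero]
  rw [Nat.cast_eq_zero]
  refine Finset.prod_eq_zero (i := (a, b)) ?_ ?_
  · rw [mem_erase]
    refine ⟨?_, mem_univ _⟩
    intro he
    rw [Prod.mk.injEq] at he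
    exact hab z (Nat.lt_succ_self z) he.1.symm he.2.symm
  · unfold cn
    rw [Finset.card_eq_zero, Finset.filter_eq_empty_iff]
    rintro i hi ⟨h1, h2⟩
    rw [mem_range] at hi
    exact hab i (by omega) h1 h2

/-- the next form -/
def nextT (N : ℕ) (T : Finset ℕ → Finset ℕ → ℤ) (M : ℕ) (S S' : Finset ℕ) : ℤ :=
  M * T (S ∩ range N) (S' ∩ range N) + Tz N S S'

theorem crosses_inter {N : ℕ} {S S' : Finset ℕ} :
    Crosses N (S ∩ range N) (S' ∩ range N) ↔ Crosses N S S' := by
  unfold Crosses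
  refine forall_congr' fun a => forall_congr' fun b => exists_congr fun i => ?_
  refine and_congr_right fun hi => ?_
  simp [hi]

theorem crosses_mono {N : ℕ} {S S' : Finset ℕ} (h : Crosses N S S') : Crosses (N + 1) S S' := by
  intro a b
  obtain ⟨i, hi, h1⟩ := h a b
  exact ⟨i, by omega, h1⟩

theorem IsForm.next {N : ℕ} {T : Finset ℕ → Finset ℕ → ℤ} (hT : IsForm N T) (M : ℕ) :
    IsForm (N + 1) (nextT N T M) := by
  refine ⟨?_, ?_, ?_, ?_⟩
  · intro S S'
    unfold nextT
    rw [hT.symm, Tz_symm]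
  · intro S S' hS
    unfold nextT
    rw [Tz_compl]
    congr 2
    have h1 : (range (N + 1) \ S) ∩ range N = range N \ (S ∩ range N) := by
      ext i
      simp only [mem_inter, mem_sdiff, mem_range]
      constructor
      · rintro ⟨⟨_, h2⟩, h3⟩
        exact ⟨h3, fun h => h2 h.1⟩
      · rintro ⟨h1, h2⟩
        exact ⟨⟨by omega, fun h => h2 ⟨h, h1⟩⟩, h1⟩
    rw [h1, hT.compl _ _ inter_subset_right]
  · intro S S' h
    unfold nextT
    have h1 : T (S ∩ range N) (S' ∩ range N) ≤ 0 := by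
      by_cases hc : Crosses N (S ∩ range N) (S' ∩ range N)
      · exact (hT.neg _ _ hc).le
      · exact (hT.zero _ _ hc).le
    have h2 : (M : ℤ) * T (S ∩ range N) (S' ∩ range N) ≤ 0 :=
      mul_nonpos_of_nonneg_of_nonpos (Int.natCast_nonneg M) h1
    have h3 := Tz_neg N S S' h
    linarith
  · intro S S' h
    unfold nextT
    rw [Tz_zero N S S' h, hT.zero, mul_zero, add_zero]
    intro h1
    exact h (crosses_mono (crosses_inter.1 h1))

/-- the zero form on at most three points -/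
theorem isForm_zero {N : ℕ} (hN : N ≤ 3) : IsForm N (fun _ _ => 0) := by
  refine ⟨fun _ _ => rfl, fun _ _ _ => rfl, ?_, fun _ _ _ => rfl⟩
  intro S S' h
  exfalso
  choose f hf using h
  have hinj : Function.Injective (fun q : Bool × Bool => (⟨f q.1 q.2, (hf q.1 q.2).1⟩ : Fin N)) := by
    rintro ⟨a, b⟩ ⟨c, d⟩ hq
    simp only [Fin.mk.injEq] at hq
    obtain ⟨_, h1, h2⟩ := hf a b
    obtain ⟨_, h3, h4⟩ := hf c d
    rw [hq] at h1 h2
    rw [Prod.mk.injEq]
    exact ⟨h1.symm.trans h3, h2.symm.trans h4⟩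
  have := Fintype.card_le_of_injective _ hinj
  simp at this
  omega

/-- the quadratic form -/
def Q (N : ℕ) (T : Finset ℕ → Finset ℕ → ℤ) (v : Finset ℕ → ℝ) : ℝ :=
  ∑ S ∈ (range N).powerset, ∑ S' ∈ (range N).powerset, (T S S' : ℝ) * (v S * v S')

end Pool.Agent.H78.Cactus
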